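import Pool.Agent.H9.Kagome

set_option autoImplicit false

namespace Pool.Agent.Results.MP_11305c_co.Kagome

open Pool.Agent.H9.Kempe

theorem result : ∀ n : ℕ, 2 ≤ n →
    ((∀ c c' : (kagome n).Coloring (Fin 3), KempeEquiv (kagome n) c c') ↔ n = 2) :=
  kag_main

end Pool.Agent.Results.MP_11305c_co.Kagome
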