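import Pool.Agent.H9.Tri

set_option autoImplicit false

namespace Pool.Agent.Results.MP_11305c_co.Tri

open Pool.Agent.H9.Kempe

theorem result : ∀ n : ℕ, 3 ≤ n →
    ((∀ c c' : (tri n).Coloring (Fin 4), KempeEquiv (tri n) c c') ↔
      n = 3 ∨ n = 4 ∨ n = 5 ∨ n = 7) :=
  tri_main

end Pool.Agent.Results.MP_11305c_co.Tri
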